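import Mathlib

/-!
# MP_3f639a_co, Q2 (negative answer)

There is a connected 3-astral geometric `(36_4)` configuration of dimension at least 3: the
celestial configuration `12#(5,3;1,5;3,1)`.  Its points lie at the angles `30 i` degrees on three
circles of radii proportional to `cos 15°, cos 45°, cos 75°`, and alternating the sign of a height
function proportional to `cot 15°, -cot 45°, cot 75°` on the three circles lifts the whole
configuration to `ℝ^3`.
-/

namespace Pool.Agent.Results.MP_3f639a_co.ThreeAstral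

/-- Euclidean `m`-space. -/
abbrev E (m : ℕ) := EuclideanSpace ℝ (Fin m)

/-- `ℓ` is a straight line of `ℝ^m`. -/
def IsLine {m : ℕ} (ℓ : Set (E m)) : Prop :=
  ∃ p v : E m, v ≠ 0 ∧ ℓ = Set.range (fun t : ℝ => p + t • v)

/-- A geometric `(n_4)` configuration: `n` points and `n` straight lines of the Euclidean plane,
every line through exactly four of the points, every point on exactly four of the lines, and
two distinct points on at most one common line. -/
structure IsGeomConfig (n : ℕ) (P : Set (E 2)) (L : Set (Set (E 2))) : Prop where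
  points_finite : P.Finite
  points_card : P.ncard = n
  lines_finite : L.Finite
  lines_card : L.ncard = n
  isLine : ∀ ℓ ∈ L, IsLine ℓ
  four_points : ∀ ℓ ∈ L, {p | p ∈ P ∧ p ∈ ℓ}.ncard = 4
  four_lines : ∀ p ∈ P, {ℓ | ℓ ∈ L ∧ p ∈ ℓ}.ncard = 4
  linear : ∀ p ∈ P, ∀ q ∈ P, p ≠ q → ∀ ℓ ∈ L, ∀ ℓ' ∈ L,
    p ∈ ℓ → q ∈ ℓ → p ∈ ℓ' → q ∈ ℓ' → ℓ = ℓ'

/-- `σ` is a symmetry of `(P, L)`: an isometry of the plane mapping the set of points onto itself
and the set of lines onto itself. -/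
def IsSymmetry (P : Set (E 2)) (L : Set (Set (E 2))) (σ : E 2 ≃ᵢ E 2) : Prop :=
  σ '' P = P ∧ (fun ℓ : Set (E 2) => σ '' ℓ) '' L = L

/-- The orbits of the points under the symmetry group. -/
def pointOrbits (P : Set (E 2)) (L : Set (Set (E 2))) : Set (Set (E 2)) :=
  {O | ∃ p ∈ P, O = {q | ∃ σ : E 2 ≃ᵢ E 2, IsSymmetry P L σ ∧ σ p = q}}

/-- The orbits of the lines under the symmetry group. -/
def lineOrbits (P : Set (E 2)) (L : Set (Set (E 2))) : Set (Set (Set (E 2))) :=
  {O | ∃ ℓ ∈ L, O = {ℓ' | ∃ σ : E 2 ≃ᵢ E 2, IsSymmetry P L σ ∧ σ '' ℓ = ℓ'}}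

/-- `(P, L)` is 3-astral: exactly three orbits of points and exactly three orbits of lines. -/
def IsThreeAstral (P : Set (E 2)) (L : Set (Set (E 2))) : Prop :=
  (pointOrbits P L).ncard = 3 ∧ (lineOrbits P L).ncard = 3

/-- The configuration is connected: any two points are joined by a chain of points in which
consecutive ones lie on a common line of the configuration. -/
def IsConnected (P : Set (E 2)) (L : Set (Set (E 2))) : Prop :=
  ∀ p ∈ P, ∀ q ∈ P,
    Relation.ReflTransGen (fun x y : E 2 => x ∈ P ∧ y ∈ P ∧ ∃ ℓ ∈ L, x ∈ ℓ ∧ y ∈ ℓ) p q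

/-- A geometric realisation in `ℝ^m` of the incidence structure of `(P, L)`: distinct points,
distinct straight lines, and a point lies on a line if and only if they are incident. -/
structure IsRealisation (P : Set (E 2)) (L : Set (Set (E 2))) {m : ℕ}
    (f : P → E m) (g : L → Set (E m)) : Prop where
  inj_points : Function.Injective f
  inj_lines : Function.Injective g
  isLine : ∀ ℓ, IsLine (g ℓ)
  incidence : ∀ (p : P) (ℓ : L), f p ∈ g ℓ ↔ (p : E 2) ∈ (ℓ : Set (E 2))

/-- The dimension of the underlying combinatorial configuration is at least `d`: it has a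
geometric realisation in some `ℝ^m` whose affine hull has dimension at least `d`. -/
def DimensionAtLeast (d : ℕ) (P : Set (E 2)) (L : Set (Set (E 2))) : Prop :=
  ∃ (m : ℕ) (f : P → E m) (g : L → Set (E m)), IsRealisation P L f g ∧
    d ≤ Module.finrank ℝ (affineSpan ℝ (Set.range f)).direction

/-! ## Coordinates in `ℤ[√3]` -/

abbrev K := Fin 3 × Fin 12

def R : Fin 3 → ℤ√3 := ![⟨1, 1⟩, ⟨2, 0⟩, ⟨-1, 1⟩]

def cc : Fin 12 → ℤ√3 :=
  ![⟨2, 0⟩, ⟨0, 1⟩, ⟨1, 0⟩, ⟨0, 0⟩, ⟨-1, 0⟩, ⟨0, -1⟩, ⟨-2, 0⟩, ⟨0, -1⟩, ⟨-1, 0⟩, ⟨0, 0⟩, ⟨1, 0⟩,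
    ⟨0, 1⟩]

def nn : Fin 12 → ℤ√3 :=
  ![⟨1, 1⟩, ⟨2, 0⟩, ⟨-1, 1⟩, ⟨1, -1⟩, ⟨-2, 0⟩, ⟨-1, -1⟩, ⟨-1, -1⟩, ⟨-2, 0⟩, ⟨1, -1⟩, ⟨-1, 1⟩,
    ⟨2, 0⟩, ⟨1, 1⟩]

def mm (j : Fin 12) : ℤ√3 := nn (j + 9)

def CC : Fin 3 → ℤ√3 := ![⟨4, 4⟩, ⟨4, 0⟩, ⟨-4, 4⟩]

def sg (i : Fin 12) : ℤ√3 := if i.val % 2 = 0 then ⟨1, 0⟩ else ⟨-1, 0⟩

def zeta : Fin 3 → ℤ√3 := ![⟨16, 8⟩, ⟨-8, 0⟩, ⟨16, -8⟩]

def kap : Fin 3 → ℤ√3 := ![⟨1, 1⟩, ⟨-2, 0⟩, ⟨-1, 1⟩]

def px (a : K) : ℤ√3 := R a.1 * cc a.2
def py (a : K) : ℤ√3 := R a.1 * cc (a.2 + 9)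
def pz (a : K) : ℤ√3 := sg a.2 * zeta a.1
def kk (b : K) : ℤ√3 := sg b.2 * kap b.1

def inc (a b : K) : Prop := nn b.2 * px a + mm b.2 * py a = CC b.1

instance (a b : K) : Decidable (inc a b) := by unfold inc; infer_instance

theorem card_pts : ∀ b : K, (Finset.univ.filter (fun a => inc a b)).card = 4 := by decide +kernel
theorem card_lns : ∀ a : K, (Finset.univ.filter (fun b => inc a b)).card = 4 := by decide +kernel
theorem pt_sep : ∀ a b : K, px a = px b → py a = py b → a = b := by decide +kernel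
theorem ln_sep : ∀ b b' : K, b ≠ b' → ∃ a, inc a b ∧ ¬ inc a b' := by decide +kernel
theorem lift_ok : ∀ a b : K, inc a b →
    pz a = kk b * (-mm b.2 * px a + nn b.2 * py a) := by decide +kernel
theorem norm_pt : ∀ a : K, px a * px a + py a * py a = 4 * (R a.1 * R a.1) := by decide +kernel
theorem norm_ln : ∀ j : Fin 12, nn j * nn j + mm j * mm j = 8 := by decide +kernel
theorem R_sep : ∀ X Y : Fin 3, 4 * (R X * R X) = 4 * (R Y * R Y) → X = Y := by decide +kernel
theorem rot_x : ∀ a : K, 2 * px (a.1, a.2 + 1) = ⟨0, 1⟩ * px a - py a := by decide +kernel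
theorem rot_y : ∀ a : K, 2 * py (a.1, a.2 + 1) = px a + ⟨0, 1⟩ * py a := by decide +kernel
theorem rot_n : ∀ j : Fin 12, 2 * nn (j + 1) = ⟨0, 1⟩ * nn j - mm j := by decide +kernel
theorem rot_m : ∀ j : Fin 12, 2 * mm (j + 1) = nn j + ⟨0, 1⟩ * mm j := by decide +kernel
theorem opp1 : ∀ a b : K, inc a b → a.1 ≠ 2 - b.1 := by decide +kernel
theorem opp2 : ∀ (b : K) (X : Fin 3), X ≠ 2 - b.1 → ∃ a : K, a.1 = X ∧ inc a b := by
  decide +kernel
theorem conn1 : ∀ a : K, ∃ i : Fin 12, ∃ b : K, inc a b ∧ inc (1, i) b := by decide +kernel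
theorem conn2 : ∀ i : Fin 12, ∃ b : K, inc (1, i) b ∧ inc (1, i + 1) b := by decide +kernel
theorem sum_x : ∑ a : K, px a = 0 := by decide +kernel
theorem sum_y : ∑ a : K, py a = 0 := by decide +kernel

/-! ## The configuration -/

theorem sqrt3_mul : Real.sqrt 3 * Real.sqrt 3 = ((3 : ℤ) : ℝ) := by
  rw [Real.mul_self_sqrt (by norm_num)]; norm_num

/-- The embedding `ℤ[√3] → ℝ`. -/
noncomputable def phi : ℤ√3 →+* ℝ := Zsqrtd.lift ⟨Real.sqrt 3, sqrt3_mul⟩

theorem phi_inj : Function.Injective phi := by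
  apply Zsqrtd.lift_injective
  intro n h
  have h1 : n < 2 := by nlinarith
  have h2 : -2 < n := by nlinarith
  interval_cases n <;> omega

theorem phi_s : phi ⟨0, 1⟩ = Real.sqrt 3 := by
  simp [phi, Zsqrtd.lift]

noncomputable def pt (a : K) : E 2 := !₂[phi (px a), phi (py a)]

def ln (b : K) : Set (E 2) :=
  {q | phi (nn b.2) * q 0 + phi (mm b.2) * q 1 = phi (CC b.1)}

noncomputable def pt3 (a : K) : E 3 := !₂[phi (px a), phi (py a), phi (pz a)]

def ln3 (b : K) : Set (E 3) :=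
  {q | phi (nn b.2) * q 0 + phi (mm b.2) * q 1 = phi (CC b.1) ∧
    q 2 = phi (kk b) * (-phi (mm b.2) * q 0 + phi (nn b.2) * q 1)}

@[simp] theorem pt_0 (a : K) : pt a 0 = phi (px a) := rfl
@[simp] theorem pt_1 (a : K) : pt a 1 = phi (py a) := rfl
@[simp] theorem pt3_0 (a : K) : pt3 a 0 = phi (px a) := rfl
@[simp] theorem pt3_1 (a : K) : pt3 a 1 = phi (py a) := rfl
@[simp] theorem pt3_2 (a : K) : pt3 a 2 = phi (pz a) := rfl

theorem pt_mem (a b : K) : pt a ∈ ln b ↔ inc a b := by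
  simp only [ln, Set.mem_ofPred_eq, pt_0, pt_1, inc]
  rw [← map_mul, ← map_mul, ← map_add]
  exact phi_inj.eq_iff

theorem pt3_mem (a b : K) : pt3 a ∈ ln3 b ↔ inc a b := by
  simp only [ln3, Set.mem_ofPred_eq, pt3_0, pt3_1, pt3_2]
  rw [← map_mul, ← map_mul, ← map_add]
  constructor
  · rintro ⟨h, -⟩
    exact phi_inj h
  · intro h
    refine ⟨congrArg phi h, ?_⟩
    rw [lift_ok a b h]
    simp only [map_mul, map_add, map_neg]

theorem pt_inj : Function.Injective pt := by
  intro a b h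
  refine pt_sep a b (phi_inj ?_) (phi_inj ?_)
  · have := congrArg (fun q : E 2 => q 0) h
    simpa using this
  · have := congrArg (fun q : E 2 => q 1) h
    simpa using this

theorem pt3_inj : Function.Injective pt3 := by
  intro a b h
  refine pt_sep a b (phi_inj ?_) (phi_inj ?_)
  · have := congrArg (fun q : E 3 => q 0) h
    simpa using this
  · have := congrArg (fun q : E 3 => q 1) h
    simpa using this

theorem ln_inj : Function.Injective ln := by
  intro b b' h
  by_contra hne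
  obtain ⟨a, h1, h2⟩ := ln_sep b b' hne
  rw [← pt_mem] at h1 h2
  rw [h] at h1
  exact h2 h1

theorem ln3_inj : Function.Injective ln3 := by
  intro b b' h
  by_contra hne
  obtain ⟨a, h1, h2⟩ := ln_sep b b' hne
  rw [← pt3_mem] at h1 h2
  rw [h] at h1
  exact h2 h1

theorem norm_ln_real (j : Fin 12) :
    phi (nn j) * phi (nn j) + phi (mm j) * phi (mm j) = 8 := by
  rw [← map_mul, ← map_mul, ← map_add, norm_ln j]
  exact map_ofNat phi 8

theorem ln_isLine (b : K) : IsLine (ln b) := by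
  obtain ⟨Z, j⟩ := b
  have h8 := norm_ln_real j
  set n := phi (nn j) with hn
  set m := phi (mm j) with hm
  set c := phi (CC Z) with hc
  refine ⟨!₂[c / 8 * n, c / 8 * m], !₂[-m, n], ?_, ?_⟩
  · intro h0
    have e0 := congrArg (fun q : E 2 => q 0) h0
    have e1 := congrArg (fun q : E 2 => q 1) h0
    simp at e0 e1
    rw [e0, e1] at h8
    norm_num at h8
  · ext q
    simp only [ln, Set.mem_ofPred_eq, Set.mem_range, ← hn, ← hm, ← hc]
    constructor
    · intro hq
      refine ⟨(-m * q 0 + n * q 1) / 8, ?_⟩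
      ext i
      fin_cases i
      · simp
        linear_combination (-n/8) * hq + (q 0 / 8) * h8
      · simp
        linear_combination (-m/8) * hq + (q 1 / 8) * h8
    · rintro ⟨t, rfl⟩
      simp
      linear_combination (c/8) * h8

theorem ln3_isLine (b : K) : IsLine (ln3 b) := by
  obtain ⟨Z, j⟩ := b
  have h8 := norm_ln_real j
  set n := phi (nn j) with hn
  set m := phi (mm j) with hm
  set c := phi (CC Z) with hc
  set k := phi (kk (Z, j)) with hk
  refine ⟨!₂[c / 8 * n, c / 8 * m, 0], !₂[-m, n, 8 * k], ?_, ?_⟩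
  · intro h0
    have e0 := congrArg (fun q : E 3 => q 0) h0
    have e1 := congrArg (fun q : E 3 => q 1) h0
    simp at e0 e1
    rw [e0, e1] at h8
    norm_num at h8
  · ext q
    simp only [ln3, Set.mem_ofPred_eq, Set.mem_range, ← hn, ← hm, ← hc, ← hk]
    constructor
    · rintro ⟨hq, hz⟩
      refine ⟨(-m * q 0 + n * q 1) / 8, ?_⟩
      ext i
      fin_cases i
      · simp
        linear_combination (-n/8) * hq + (q 0 / 8) * h8
      · simp
        linear_combination (-m/8) * hq + (q 1 / 8) * h8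
      · simp
        linear_combination - hz
    · rintro ⟨t, rfl⟩
      constructor
      · simp
        linear_combination (c/8) * h8
      · simp
        linear_combination (- k * t) * h8

/-- Two lines with two common points coincide. -/
theorem line_unique {m : ℕ} {p q : E m} (hpq : p ≠ q) {ℓ : Set (E m)} (hℓ : IsLine ℓ)
    (hp : p ∈ ℓ) (hq : q ∈ ℓ) : ℓ = Set.range (fun t : ℝ => p + t • (q - p)) := by
  obtain ⟨p0, v, hv, rfl⟩ := hℓ
  obtain ⟨s, rfl⟩ := hp
  obtain ⟨t, rfl⟩ := hq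
  have hst : t - s ≠ 0 := by
    intro h
    apply hpq
    rw [sub_eq_zero.mp h]
  ext x
  simp only [Set.mem_range]
  constructor
  · rintro ⟨r, rfl⟩
    refine ⟨(r - s) / (t - s), ?_⟩
    have : (r - s) / (t - s) * (t - s) = r - s := div_mul_cancel₀ _ hst
    have h2 : (p0 + t • v) - (p0 + s • v) = (t - s) • v := by
      rw [sub_smul]; abel
    rw [h2, smul_smul, this, sub_smul]
    abel
  · rintro ⟨r, rfl⟩
    refine ⟨s + r * (t - s), ?_⟩
    have h2 : (p0 + t • v) - (p0 + s • v) = (t - s) • v := by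
      rw [sub_smul]; abel
    rw [h2, smul_smul, add_smul]
    abel

theorem ncard_image_filter {α : Type*} (f : K → α) (hf : Function.Injective f) (p : K → Prop)
    [DecidablePred p] : (f '' {a | p a}).ncard = (Finset.univ.filter p).card := by
  rw [Set.ncard_image_of_injective _ hf, ← Set.ncard_coe_finset]
  congr 1
  ext a
  simp

theorem isGeomConfig : IsGeomConfig 36 (Set.range pt) (Set.range ln) where
  points_finite := Set.finite_range _
  points_card := by
    rw [← Set.image_univ, Set.ncard_image_of_injective _ pt_inj, Set.ncard_univ]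
    simp
  lines_finite := Set.finite_range _
  lines_card := by
    rw [← Set.image_univ, Set.ncard_image_of_injective _ ln_inj, Set.ncard_univ]
    simp
  isLine := by
    rintro _ ⟨b, rfl⟩
    exact ln_isLine b
  four_points := by
    rintro _ ⟨b, rfl⟩
    have : {p | p ∈ Set.range pt ∧ p ∈ ln b} = pt '' {a | inc a b} := by
      ext p
      simp only [Set.mem_ofPred_eq, Set.mem_range, Set.mem_image]
      constructor
      · rintro ⟨⟨a, rfl⟩, h⟩
        exact ⟨a, (pt_mem a b).mp h, rfl⟩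
      · rintro ⟨a, h, rfl⟩
        exact ⟨⟨a, rfl⟩, (pt_mem a b).mpr h⟩
    rw [this, ncard_image_filter pt pt_inj]
    exact card_pts b
  four_lines := by
    rintro _ ⟨a, rfl⟩
    have : {ℓ | ℓ ∈ Set.range ln ∧ pt a ∈ ℓ} = ln '' {b | inc a b} := by
      ext ℓ
      simp only [Set.mem_ofPred_eq, Set.mem_range, Set.mem_image]
      constructor
      · rintro ⟨⟨b, rfl⟩, h⟩
        exact ⟨b, (pt_mem a b).mp h, rfl⟩
      · rintro ⟨b, h, rfl⟩
        exact ⟨⟨b, rfl⟩, (pt_mem a b).mpr h⟩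
    rw [this, ncard_image_filter ln ln_inj]
    exact card_lns a
  linear := by
    rintro p _ q _ hpq _ ⟨b, rfl⟩ _ ⟨b', rfl⟩ h1 h2 h3 h4
    rw [line_unique hpq (ln_isLine b) h1 h2, line_unique hpq (ln_isLine b') h3 h4]

/-! ## Symmetries -/

theorem sq3 : Real.sqrt 3 * Real.sqrt 3 = 3 := Real.mul_self_sqrt (by norm_num)

/-- Rotation by 30 degrees. -/
noncomputable def rotF (v : E 2) : E 2 :=
  !₂[(Real.sqrt 3 * v 0 - v 1) / 2, (v 0 + Real.sqrt 3 * v 1) / 2]

noncomputable def rotG (v : E 2) : E 2 :=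
  !₂[(Real.sqrt 3 * v 0 + v 1) / 2, (-v 0 + Real.sqrt 3 * v 1) / 2]

noncomputable def rot : E 2 ≃ᵢ E 2 :=
  IsometryEquiv.mk' rotF rotG
    (by
      intro x
      ext i
      fin_cases i
      · simp [rotF, rotG]
        linear_combination (x 0 / 4) * sq3
      · simp [rotF, rotG]
        linear_combination (x 1 / 4) * sq3)
    (by
      apply Isometry.of_dist_eq
      intro x y
      rw [EuclideanSpace.dist_eq, EuclideanSpace.dist_eq]
      congr 1
      simp only [Fin.sum_univ_two, Real.dist_eq, sq_abs]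
      simp [rotF]
      linear_combination (((x 0 - y 0) ^ 2 + (x 1 - y 1) ^ 2) / 4) * sq3)

theorem rot_apply (v : E 2) : rot v = rotF v := rfl

theorem rot_pt (a : K) : rot (pt a) = pt (a.1, a.2 + 1) := by
  have hx := congrArg phi (rot_x a)
  have hy := congrArg phi (rot_y a)
  simp only [map_mul, map_add, map_sub, phi_s, map_ofNat] at hx hy
  ext i
  fin_cases i
  · simp [rot_apply, rotF]
    linear_combination (-1/2) * hx
  · simp [rot_apply, rotF]
    linear_combination (-1/2) * hy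

theorem rot_mem_ln (b : K) (q : E 2) : rot q ∈ ln (b.1, b.2 + 1) ↔ q ∈ ln b := by
  have hx := congrArg phi (rot_n b.2)
  have hy := congrArg phi (rot_m b.2)
  simp only [map_mul, map_add, map_sub, phi_s, map_ofNat] at hx hy
  simp only [ln, Set.mem_ofPred_eq, rot_apply, rotF]
  have : phi (nn (b.2 + 1)) * ((Real.sqrt 3 * q 0 - q 1) / 2) +
      phi (mm (b.2 + 1)) * ((q 0 + Real.sqrt 3 * q 1) / 2) =
      phi (nn b.2) * q 0 + phi (mm b.2) * q 1 := by
    linear_combination ((Real.sqrt 3 * q 0 - q 1) / 4) * hx +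
      ((q 0 + Real.sqrt 3 * q 1) / 4) * hy +
      ((phi (nn b.2) * q 0 + phi (mm b.2) * q 1) / 4) * sq3
  rw [← this]
  simp

theorem rot_ln (b : K) : rot '' ln b = ln (b.1, b.2 + 1) := by
  ext q
  constructor
  · rintro ⟨x, hx, rfl⟩
    exact (rot_mem_ln b x).mpr hx
  · intro hq
    obtain ⟨x, rfl⟩ := rot.surjective q
    exact ⟨x, (rot_mem_ln b x).mp hq, rfl⟩

theorem shift_surj : ∀ c : K, ∃ a : K, (a.1, a.2 + 1) = c := by decide +kernel

theorem rot_sym : IsSymmetry (Set.range pt) (Set.range ln) rot := by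
  constructor
  · ext q
    constructor
    · rintro ⟨_, ⟨a, rfl⟩, rfl⟩
      exact ⟨_, (rot_pt a).symm⟩
    · rintro ⟨c, rfl⟩
      obtain ⟨a, rfl⟩ := shift_surj c
      exact ⟨pt a, ⟨a, rfl⟩, rot_pt a⟩
  · ext ℓ
    constructor
    · rintro ⟨_, ⟨b, rfl⟩, rfl⟩
      exact ⟨_, (rot_ln b).symm⟩
    · rintro ⟨c, rfl⟩
      obtain ⟨b, rfl⟩ := shift_surj c
      exact ⟨ln b, ⟨b, rfl⟩, rot_ln b⟩

theorem sym_trans {P : Set (E 2)} {L : Set (Set (E 2))} {σ τ : E 2 ≃ᵢ E 2}
    (h1 : IsSymmetry P L σ) (h2 : IsSymmetry P L τ) : IsSymmetry P L (σ.trans τ) := by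
  constructor
  · have : (σ.trans τ) '' P = τ '' (σ '' P) := by
      rw [← Set.image_comp]; rfl
    rw [this, h1.1, h2.1]
  · have : (fun ℓ : Set (E 2) => (σ.trans τ) '' ℓ) '' L =
        (fun ℓ : Set (E 2) => τ '' ℓ) '' ((fun ℓ : Set (E 2) => σ '' ℓ) '' L) := by
      rw [← Set.image_comp]
      apply congrArg (fun F : Set (E 2) → Set (E 2) => F '' L)
      funext ℓ
      simp only [Function.comp]
      rw [← Set.image_comp]
      rfl
    rw [this, h1.2, h2.2]

theorem refl_image (S : Set (E 2)) : (IsometryEquiv.refl (E 2)) '' S = S := by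
  change id '' S = S
  exact Set.image_id S

theorem sym_refl (P : Set (E 2)) (L : Set (Set (E 2))) :
    IsSymmetry P L (IsometryEquiv.refl (E 2)) := by
  constructor
  · exact refl_image P
  · simp only [refl_image, Set.image_id']

theorem ofNat_succ (i : Fin 12) (k : ℕ) :
    i + Fin.ofNat 12 k + 1 = i + Fin.ofNat 12 (k + 1) := by
  rw [add_assoc]
  congr 1
  apply Fin.ext
  simp [Fin.ofNat, Fin.val_add]

theorem rot_pow (k : ℕ) : ∃ σ : E 2 ≃ᵢ E 2, IsSymmetry (Set.range pt) (Set.range ln) σ ∧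
    (∀ a : K, σ (pt a) = pt (a.1, a.2 + Fin.ofNat 12 k)) ∧
    (∀ b : K, σ '' ln b = ln (b.1, b.2 + Fin.ofNat 12 k)) := by
  induction k with
  | zero =>
    refine ⟨IsometryEquiv.refl _, sym_refl _ _, ?_, ?_⟩
    · intro a
      have : Fin.ofNat 12 0 = 0 := rfl
      rw [this, add_zero]
      rfl
    · intro b
      have : Fin.ofNat 12 0 = 0 := rfl
      rw [this, add_zero]
      exact refl_image _
  | succ k ih =>
    obtain ⟨σ, h1, h2, h3⟩ := ih
    refine ⟨σ.trans rot, sym_trans h1 rot_sym, ?_, ?_⟩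
    · intro a
      have : (σ.trans rot) (pt a) = rot (σ (pt a)) := rfl
      rw [this, h2, rot_pt]
      simp only [ofNat_succ]
    · intro b
      have : (σ.trans rot) '' ln b = rot '' (σ '' ln b) := by
        rw [← Set.image_comp]; rfl
      rw [this, h3, rot_ln]
      simp only [ofNat_succ]

theorem exists_rot (i j : Fin 12) : ∃ σ : E 2 ≃ᵢ E 2,
    IsSymmetry (Set.range pt) (Set.range ln) σ ∧
    (∀ X : Fin 3, σ (pt (X, i)) = pt (X, j)) ∧ (∀ Z : Fin 3, σ '' ln (Z, i) = ln (Z, j)) := by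
  obtain ⟨σ, h1, h2, h3⟩ := rot_pow (j - i).val
  have : i + Fin.ofNat 12 (j - i).val = j := by
    have : Fin.ofNat 12 (j - i).val = j - i := by
      apply Fin.ext
      simp [Fin.ofNat, Nat.mod_eq_of_lt (j - i).isLt]
    rw [this]
    abel
  refine ⟨σ, h1, fun X => ?_, fun Z => ?_⟩
  · rw [h2]; simp only [this]
  · rw [h3]; simp only [this]

/-- A symmetry fixes the origin. -/
theorem sym_zero {σ : E 2 ≃ᵢ E 2} (h : IsSymmetry (Set.range pt) (Set.range ln) σ) :
    σ 0 = 0 := by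
  have hex : ∀ a : K, ∃ b : K, σ (pt a) = pt b := by
    intro a
    have : σ (pt a) ∈ σ '' Set.range pt := ⟨_, ⟨a, rfl⟩, rfl⟩
    rw [h.1] at this
    obtain ⟨b, hb⟩ := this
    exact ⟨b, hb.symm⟩
  choose π hπ using hex
  have hinj : Function.Injective π := by
    intro a b hab
    apply pt_inj
    apply σ.injective
    rw [hπ, hπ, hab]
  have hbij : Function.Bijective π := Finite.injective_iff_bijective.mp hinj
  have hsum : ∑ a : K, pt a = 0 := by
    have e0 : ∑ a : K, phi (px a) = 0 := by rw [← map_sum, sum_x, map_zero]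
    have e1 : ∑ a : K, phi (py a) = 0 := by rw [← map_sum, sum_y, map_zero]
    ext i
    fin_cases i
    · simpa using e0
    · simpa using e1
  let A := σ.toRealAffineIsometryEquiv
  have hA : ∀ x, σ x = A.linearIsometryEquiv x + σ 0 := by
    intro x
    have h1 : A x = σ x := rfl
    have h2 : A 0 = σ 0 := rfl
    have h3 := A.map_vadd 0 x
    simp only [vadd_eq_add, add_zero] at h3
    rw [h1, h2] at h3
    exact h3
  have h1 : ∑ a : K, σ (pt a) = 0 := by
    have : ∑ a : K, σ (pt a) = ∑ a : K, pt (π a) := Finset.sum_congr rfl (fun a _ => hπ a)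
    rw [this, Function.Bijective.sum_comp hbij pt, hsum]
  have h2 : ∑ a : K, σ (pt a) = (36 : ℕ) • σ 0 := by
    calc ∑ a : K, σ (pt a) = ∑ a : K, (A.linearIsometryEquiv (pt a) + σ 0) :=
          Finset.sum_congr rfl (fun a _ => hA _)
      _ = A.linearIsometryEquiv (∑ a : K, pt a) + (36 : ℕ) • σ 0 := by
          rw [Finset.sum_add_distrib, map_sum]
          simp
      _ = (36 : ℕ) • σ 0 := by rw [hsum]; simp
  rw [h1, ← Nat.cast_smul_eq_nsmul ℝ] at h2
  have := smul_eq_zero.mp h2.symm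
  rcases this with h | h
  · norm_num at h
  · exact h

theorem norm_pt_sq (a : K) : ‖pt a‖ ^ 2 = phi (4 * (R a.1 * R a.1)) := by
  rw [EuclideanSpace.norm_sq_eq, Fin.sum_univ_two, ← norm_pt a]
  simp only [Real.norm_eq_abs, sq_abs, pt_0, pt_1, map_add, map_mul]
  ring

theorem sym_ring {σ : E 2 ≃ᵢ E 2} (h : IsSymmetry (Set.range pt) (Set.range ln) σ)
    {a b : K} (hab : σ (pt a) = pt b) : a.1 = b.1 := by
  have h0 := sym_zero h
  have h1 : ‖σ (pt a)‖ = ‖pt a‖ := by
    have := σ.isometry.dist_eq (pt a) 0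
    rw [h0] at this
    simpa using this
  rw [hab] at h1
  have h2 : phi (4 * (R a.1 * R a.1)) = phi (4 * (R b.1 * R b.1)) := by
    rw [← norm_pt_sq, ← norm_pt_sq, h1]
  have h3 := phi_inj h2
  exact R_sep _ _ h3

theorem sym_line {σ : E 2 ≃ᵢ E 2} (h : IsSymmetry (Set.range pt) (Set.range ln) σ)
    {b b' : K} (hb : σ '' ln b = ln b') : b.1 = b'.1 := by
  by_contra hne
  have hX : (2 - b'.1 : Fin 3) ≠ 2 - b.1 := by
    intro h'
    apply hne
    exact (sub_right_injective h').symm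
  obtain ⟨a, ha1, ha2⟩ := opp2 b (2 - b'.1) hX
  have h1 : σ (pt a) ∈ Set.range pt := by
    rw [← h.1]
    exact ⟨_, ⟨a, rfl⟩, rfl⟩
  obtain ⟨a', ha'⟩ := h1
  have h2 : pt a' ∈ ln b' := by
    rw [← hb, ha']
    exact ⟨_, (pt_mem a b).mpr ha2, rfl⟩
  rw [pt_mem] at h2
  have h3 := sym_ring h ha'.symm
  exact opp1 a' b' h2 (h3.symm.trans ha1)

def ringP (X : Fin 3) : Set (E 2) := {q | ∃ i : Fin 12, pt (X, i) = q}
def ringL (Z : Fin 3) : Set (Set (E 2)) := {ℓ | ∃ j : Fin 12, ln (Z, j) = ℓ}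

theorem ringP_inj : Function.Injective ringP := by
  intro X Y h
  have : pt (X, 0) ∈ ringP Y := by
    rw [← h]; exact ⟨0, rfl⟩
  obtain ⟨i, hi⟩ := this
  exact (congrArg Prod.fst (pt_inj hi)).symm

theorem ringL_inj : Function.Injective ringL := by
  intro X Y h
  have : ln (X, 0) ∈ ringL Y := by
    rw [← h]; exact ⟨0, rfl⟩
  obtain ⟨i, hi⟩ := this
  exact (congrArg Prod.fst (ln_inj hi)).symm

theorem orbit_pt (a : K) :
    {q | ∃ σ : E 2 ≃ᵢ E 2, IsSymmetry (Set.range pt) (Set.range ln) σ ∧ σ (pt a) = q} =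
      ringP a.1 := by
  ext q
  constructor
  · rintro ⟨σ, hσ, rfl⟩
    have h1 : σ (pt a) ∈ Set.range pt := by
      rw [← hσ.1]
      exact ⟨_, ⟨a, rfl⟩, rfl⟩
    obtain ⟨b, hb⟩ := h1
    have := sym_ring hσ hb.symm
    refine ⟨b.2, ?_⟩
    rw [this, ← hb]
  · rintro ⟨i, rfl⟩
    obtain ⟨σ, h1, h2, -⟩ := exists_rot a.2 i
    exact ⟨σ, h1, h2 a.1⟩

theorem orbit_ln (b : K) :
    {ℓ' | ∃ σ : E 2 ≃ᵢ E 2, IsSymmetry (Set.range pt) (Set.range ln) σ ∧ σ '' ln b = ℓ'} =
      ringL b.1 := by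
  ext q
  constructor
  · rintro ⟨σ, hσ, rfl⟩
    have h1 : σ '' ln b ∈ Set.range ln := by
      have : σ '' ln b ∈ (fun ℓ : Set (E 2) => σ '' ℓ) '' Set.range ln := ⟨_, ⟨b, rfl⟩, rfl⟩
      rwa [hσ.2] at this
    obtain ⟨c, hc⟩ := h1
    have := sym_line hσ hc.symm
    refine ⟨c.2, ?_⟩
    rw [this, ← hc]
  · rintro ⟨i, rfl⟩
    obtain ⟨σ, h1, -, h2⟩ := exists_rot b.2 i
    exact ⟨σ, h1, h2 b.1⟩

theorem isThreeAstral : IsThreeAstral (Set.range pt) (Set.range ln) := by
  constructor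
  · have : pointOrbits (Set.range pt) (Set.range ln) = Set.range ringP := by
      ext O
      constructor
      · rintro ⟨_, ⟨a, rfl⟩, rfl⟩
        exact ⟨a.1, (orbit_pt a).symm⟩
      · rintro ⟨X, rfl⟩
        exact ⟨_, ⟨(X, 0), rfl⟩, (orbit_pt (X, 0)).symm⟩
    rw [this, ← Set.image_univ, Set.ncard_image_of_injective _ ringP_inj, Set.ncard_univ]
    simp
  · have : lineOrbits (Set.range pt) (Set.range ln) = Set.range ringL := by
      ext O
      constructor
      · rintro ⟨_, ⟨a, rfl⟩, rfl⟩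
        exact ⟨a.1, (orbit_ln a).symm⟩
      · rintro ⟨X, rfl⟩
        exact ⟨_, ⟨(X, 0), rfl⟩, (orbit_ln (X, 0)).symm⟩
    rw [this, ← Set.image_univ, Set.ncard_image_of_injective _ ringL_inj, Set.ncard_univ]
    simp

/-! ## Connectedness -/

/-- Two points of the configuration on a common line of the configuration. -/
def Adj (x y : E 2) : Prop :=
  x ∈ Set.range pt ∧ y ∈ Set.range pt ∧ ∃ ℓ ∈ Set.range ln, x ∈ ℓ ∧ y ∈ ℓ

theorem adj_symm {x y : E 2} (h : Adj x y) : Adj y x := by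
  obtain ⟨h1, h2, ℓ, h3, h4, h5⟩ := h
  exact ⟨h2, h1, ℓ, h3, h5, h4⟩

theorem adj_of_inc {a a' b : K} (h : inc a b) (h' : inc a' b) : Adj (pt a) (pt a') :=
  ⟨⟨a, rfl⟩, ⟨a', rfl⟩, ln b, ⟨b, rfl⟩, (pt_mem _ _).mpr h, (pt_mem _ _).mpr h'⟩

theorem reach_ring (i : Fin 12) (k : ℕ) :
    Relation.ReflTransGen Adj (pt (1, i)) (pt (1, i + Fin.ofNat 12 k)) := by
  induction k with
  | zero =>
    have : Fin.ofNat 12 0 = 0 := rfl
    rw [this, add_zero]
  | succ k ih =>
    refine ih.tail ?_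
    obtain ⟨b, h1, h2⟩ := conn2 (i + Fin.ofNat 12 k)
    rw [ofNat_succ] at h2
    exact adj_of_inc h1 h2

theorem isConnected : IsConnected (Set.range pt) (Set.range ln) := by
  rintro _ ⟨a, rfl⟩ _ ⟨a', rfl⟩
  change Relation.ReflTransGen Adj (pt a) (pt a')
  obtain ⟨i, b, h1, h2⟩ := conn1 a
  obtain ⟨i', b', h1', h2'⟩ := conn1 a'
  have h := reach_ring i (i' - i).val
  have hi : i + Fin.ofNat 12 (i' - i).val = i' := by
    have : Fin.ofNat 12 (i' - i).val = i' - i := by
      apply Fin.ext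
      simp [Fin.ofNat, Nat.mod_eq_of_lt (i' - i).isLt]
    rw [this]
    abel
  rw [hi] at h
  exact (Relation.ReflTransGen.head (adj_of_inc h1 h2) h).tail (adj_of_inc h2' h1')

/-! ## The lift to `ℝ^3` -/

noncomputable def fF : Set.range pt → E 3 := fun p => pt3 ((Equiv.ofInjective pt pt_inj).symm p)
noncomputable def gF : Set.range ln → Set (E 3) :=
  fun ℓ => ln3 ((Equiv.ofInjective ln ln_inj).symm ℓ)

theorem isRealisation : IsRealisation (Set.range pt) (Set.range ln) fF gF where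
  inj_points := pt3_inj.comp (Equiv.injective _)
  inj_lines := ln3_inj.comp (Equiv.injective _)
  isLine := fun ℓ => ln3_isLine _
  incidence := by
    intro p ℓ
    obtain ⟨a, rfl⟩ := (Equiv.ofInjective pt pt_inj).surjective p
    obtain ⟨b, rfl⟩ := (Equiv.ofInjective ln ln_inj).surjective ℓ
    change pt3 ((Equiv.ofInjective pt pt_inj).symm (Equiv.ofInjective pt pt_inj a)) ∈
      ln3 ((Equiv.ofInjective ln ln_inj).symm (Equiv.ofInjective ln ln_inj b)) ↔ pt a ∈ ln b
    rw [Equiv.symm_apply_apply, Equiv.symm_apply_apply, pt3_mem, pt_mem]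

theorem range_fF : Set.range fF = Set.range pt3 := by
  ext q
  constructor
  · rintro ⟨p, rfl⟩
    exact ⟨_, rfl⟩
  · rintro ⟨a, rfl⟩
    refine ⟨Equiv.ofInjective pt pt_inj a, ?_⟩
    simp [fF]

theorem phi_pos_of {x : ℤ√3} (h : x ≠ 0) : phi x ≠ 0 := by
  intro h'
  exact h (phi_inj (by rw [h', map_zero]))

theorem dX : px (0, 6) = - px (0, 0) ∧ py (0, 6) = py (0, 0) ∧ pz (0, 6) = pz (0, 0) ∧
    2 * px (0, 0) ≠ 0 := by decide +kernel
theorem dY : px (0, 9) = px (0, 3) ∧ py (0, 9) = - py (0, 3) ∧ pz (0, 9) = pz (0, 3) ∧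
    2 * py (0, 3) ≠ 0 := by decide +kernel
theorem dZ : pz (0, 1) = - pz (0, 0) ∧ 2 * pz (0, 0) ≠ 0 := by decide +kernel

theorem span_top : (affineSpan ℝ (Set.range pt3)).direction = ⊤ := by
  rw [direction_affineSpan]
  have hmem : ∀ a b : K, pt3 a - pt3 b ∈ vectorSpan ℝ (Set.range pt3) := by
    intro a b
    exact vsub_mem_vectorSpan ℝ ⟨a, rfl⟩ ⟨b, rfl⟩
  set V := vectorSpan ℝ (Set.range pt3) with hV
  have e0 : EuclideanSpace.single (0 : Fin 3) (1 : ℝ) ∈ V := by
    obtain ⟨h1, h2, h3, h4⟩ := dX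
    have h5 := phi_pos_of h4
    rw [map_mul, map_ofNat] at h5
    have h6 := right_ne_zero_of_mul h5
    have : EuclideanSpace.single (0 : Fin 3) (1 : ℝ) =
        (2 * phi (px (0, 0)))⁻¹ • (pt3 (0, 0) - pt3 (0, 6)) := by
      ext i
      fin_cases i
      · simp [h1]
        field_simp
        ring
      · simp [h2]
      · simp [h3]
    rw [this]
    exact V.smul_mem _ (hmem _ _)
  have e1 : EuclideanSpace.single (1 : Fin 3) (1 : ℝ) ∈ V := by
    obtain ⟨h1, h2, h3, h4⟩ := dY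
    have h5 := phi_pos_of h4
    rw [map_mul, map_ofNat] at h5
    have h6 := right_ne_zero_of_mul h5
    have : EuclideanSpace.single (1 : Fin 3) (1 : ℝ) =
        (2 * phi (py (0, 3)))⁻¹ • (pt3 (0, 3) - pt3 (0, 9)) := by
      ext i
      fin_cases i
      · simp [h1]
      · simp [h2]
        field_simp
        ring
      · simp [h3]
    rw [this]
    exact V.smul_mem _ (hmem _ _)
  have e2 : EuclideanSpace.single (2 : Fin 3) (1 : ℝ) ∈ V := by
    obtain ⟨h1, h4⟩ := dZ
    have h5 := phi_pos_of h4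
    rw [map_mul, map_ofNat] at h5
    have h6 := right_ne_zero_of_mul h5
    have : EuclideanSpace.single (2 : Fin 3) (1 : ℝ) =
        (2 * phi (pz (0, 0)))⁻¹ • ((pt3 (0, 0) - pt3 (0, 1)) -
          (phi (px (0, 0)) - phi (px (0, 1))) • EuclideanSpace.single (0 : Fin 3) (1 : ℝ) -
          (phi (py (0, 0)) - phi (py (0, 1))) • EuclideanSpace.single (1 : Fin 3) (1 : ℝ)) := by
      ext i
      fin_cases i
      · simp
      · simp
      · simp [h1]
        field_simp
        ring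
    rw [this]
    exact V.smul_mem _ (V.sub_mem (V.sub_mem (hmem _ _) (V.smul_mem _ e0)) (V.smul_mem _ e1))
  rw [eq_top_iff]
  intro x _
  have : x = x 0 • EuclideanSpace.single (0 : Fin 3) (1 : ℝ) +
      x 1 • EuclideanSpace.single (1 : Fin 3) (1 : ℝ) +
      x 2 • EuclideanSpace.single (2 : Fin 3) (1 : ℝ) := by
    ext i
    fin_cases i <;> simp
  rw [this]
  exact V.add_mem (V.add_mem (V.smul_mem _ e0) (V.smul_mem _ e1)) (V.smul_mem _ e2)

/-- **Negative answer to Q2.**  There is a 3-astral geometric `(36_4)` configuration, which is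
moreover connected, whose underlying combinatorial configuration has dimension at least 3. -/
theorem result : ∃ (P : Set (E 2)) (L : Set (Set (E 2))),
    IsGeomConfig 36 P L ∧ IsThreeAstral P L ∧ IsConnected P L ∧ DimensionAtLeast 3 P L := by
  refine ⟨Set.range pt, Set.range ln, isGeomConfig, isThreeAstral, isConnected, 3, fF, gF,
    isRealisation, ?_⟩
  rw [range_fF, span_top, finrank_top]
  simp

end Pool.Agent.Results.MP_3f639a_co.ThreeAstral
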